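import Pool.Agent.X24.Quad
import Pool.Agent.Results.MP_40718a_co.TreewidthFour
import Pool.Agent.Results.MP_40718a_co.CarvingWidthFive
import Pool.Agent.Results.MP_40718a_co.CutwidthSix

/-!
# A class of graphs closed under four operations with quadruple covers (MP_40718a_co)

Let `Closure` be the least class of finite multigraphs which contains the unions of two even
subgraphs (the graphs with a nowhere-zero 4-flow) and the bridgeless graphs of treewidth at most
four, of carving width at most five and of cutwidth at most six, and which is closed under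
identification of vertices, edge-disjoint unions (on a common set of vertices), and sums along edge
cuts with at most three edges. Every graph of this class has a quadruple cover by six even
subgraphs.
-/

set_option autoImplicit false

namespace Pool.Agent.Results.MP_40718a_co.CoverClosure

open Finset

/-- Every vertex has even degree in `(V, C)`; a loop counts twice. -/
def IsEven {V E : Type} (src dst : E → V) (C : Set E) : Prop :=
  ∀ v, Even ({e | e ∈ C ∧ src e = v}.ncard + {e | e ∈ C ∧ dst e = v}.ncard)

/-- There are six even subgraphs such that every edge is in exactly four of them. -/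
def QuadrupleCover {V E : Type} (src dst : E → V) : Prop :=
  ∃ C : Fin 6 → Set E, (∀ i, IsEven src dst (C i)) ∧ ∀ e, {i | e ∈ C i}.ncard = 4

/-- The edges with exactly one end in `Z`. -/
def leaving {V E : Type} (src dst : E → V) (Z : Set V) : Set E :=
  {e | ¬ (src e ∈ Z ↔ dst e ∈ Z)}

/-- Tree decomposition of the graph, with bags `bag i` for the nodes `i` of the tree `T`. -/
def IsTreeDecomposition {V E ι : Type} (src dst : E → V) (T : SimpleGraph ι)
    (bag : ι → Finset V) : Prop :=
  T.IsTree ∧ (∀ v, ∃ i, v ∈ bag i) ∧ (∀ e, ∃ i, src e ∈ bag i ∧ dst e ∈ bag i) ∧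
    ∀ (i j : ι) (p : T.Walk i j), p.IsPath → ∀ k ∈ p.support, ∀ v, v ∈ bag i → v ∈ bag j →
      v ∈ bag k

/-- The treewidth is at most `k`. -/
def TreewidthLE {V E : Type} (src dst : E → V) (k : ℕ) : Prop :=
  ∃ (ι : Type) (_ : Fintype ι) (T : SimpleGraph ι) (bag : ι → Finset V),
    IsTreeDecomposition src dst T bag ∧ ∀ i, (bag i).card ≤ k + 1

/-- The carving width is at most `k`: `T` is a binary tree whose leaves are labelled bijectively by
the vertices, and for every subtree at most `k` edges leave the set of its leaves. -/
def CarvingWidthLE {V E : Type} [Fintype E] (src dst : E → V) (k : ℕ) : Prop :=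
  ∃ T : Pool.Agent.W420.BF.Tr V, T.set = Set.univ ∧ T.Nodup ∧ T.Width src dst k

/-- The cutwidth is at most `k`: the vertices are placed on a line such that at most `k` edges pass
over each gap. -/
def CutwidthLE {V E : Type} (src dst : E → V) (k : ℕ) : Prop :=
  ∃ f : V → ℕ, Function.Injective f ∧ ∀ n, (leaving src dst {v | f v < n}).ncard ≤ k

open Classical in
/-- Contraction of `Z` to its element `z`: every vertex of `Z` is replaced by `z`. -/
noncomputable def contract {V : Type} (Z : Set V) (z v : V) : V := if v ∈ Z then z else v

open Classical in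
/-- The second ends of the edges after the edges in `D` have been replaced by loops. -/
noncomputable def drop {V E : Type} (src dst : E → V) (D : Set E) (e : E) : V :=
  if e ∈ D then src e else dst e

/-- The closure of the basic graphs under identification of vertices, edge-disjoint unions, and sums
along cuts with at most three edges. The edge set `E` is fixed (a deleted edge is a loop), the vertex
set may change. -/
inductive Closure {E : Type} [Fintype E] : ∀ {V : Type}, (E → V) → (E → V) → Prop
  | flow {V : Type} (src dst : E → V) (C₁ C₂ : Set E) : IsEven src dst C₁ → IsEven src dst C₂ →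
      C₁ ∪ C₂ = Set.univ → Closure src dst
  | narrow {V : Type} [Finite V] (src dst : E → V) :
      (∀ Z, (leaving src dst Z).ncard ≠ 1) →
      (TreewidthLE src dst 4 ∨ CarvingWidthLE src dst 5 ∨ CutwidthLE src dst 6) →
      Closure src dst
  | identify {V W : Type} (src dst : E → V) (c : V → W) : Closure src dst →
      Closure (c ∘ src) (c ∘ dst)
  | union {V : Type} (src dst : E → V) (D : Set E) : Closure src (drop src dst D) →
      Closure src (drop src dst Dᶜ) → Closure src dst
  | sum {V : Type} (src dst : E → V) (Z : Set V) (z z' : V) : z ∈ Z → z' ∉ Z →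
      (leaving src dst Z).ncard ≤ 3 → Closure (contract Z z ∘ src) (contract Z z ∘ dst) →
      Closure (contract Zᶜ z' ∘ src) (contract Zᶜ z' ∘ dst) → Closure src dst

open Pool.Agent.X24.QC

section
variable {E : Type} [Fintype E]

open Classical in
theorem bd_ind {V : Type} (src dst : E → V) (C : Set E) (x : V) :
    bd src dst (fun e => if e ∈ C then 1 else 0) x =
      (({e | e ∈ C ∧ src e = x}.ncard + {e | e ∈ C ∧ dst e = x}.ncard : ℕ) : ZMod 2) := by
  have h : ∀ s : E → V, {e | e ∈ C ∧ s e = x}.ncard = ∑ e, if (e ∈ C ∧ s e = x) then 1 else 0 := by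
    intro s
    rw [Set.ncard_eq_toFinset_card', Set.toFinset_ofPred, card_filter]
  rw [h, h]
  unfold bd
  push_cast
  rw [← sum_add_distrib]
  refine sum_congr rfl fun e _ => ?_
  by_cases h1 : e ∈ C <;> by_cases h2 : src e = x <;> by_cases h3 : dst e = x <;>
    simp [h1, h2, h3]

theorem isEven_iff {V : Type} (src dst : E → V) (C : Set E) [DecidablePred (· ∈ C)] :
    IsEven src dst C ↔ ∀ x, bd src dst (fun e => if e ∈ C then 1 else 0) x = 0 := by
  unfold IsEven
  refine forall_congr' fun x => ?_
  rw [← ZMod.natCast_eq_zero_iff_even, ← bd_ind]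
  have : (fun e => @ite (ZMod 2) (e ∈ C) (Classical.propDecidable _) 1 0) =
      fun e => if e ∈ C then 1 else 0 := by
    funext e; congr
  rw [this]

theorem qc_of_cover {V : Type} {src dst : E → V} (h : QuadrupleCover src dst) : QC src dst := by
  classical
  obtain ⟨C, h1, h2⟩ := h
  refine ⟨fun i e => if e ∈ C i then 1 else 0, fun i => (isEven_iff src dst (C i)).mp (h1 i),
    fun e => ?_⟩
  rw [← h2 e, Set.ncard_eq_toFinset_card']
  congr 1
  ext i
  by_cases h : e ∈ C i <;> simp [h]

theorem cover_of_qc {V : Type} {src dst : E → V} (h : QC src dst) : QuadrupleCover src dst := by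
  classical
  obtain ⟨f, h1, h2⟩ := h
  refine ⟨fun i => {e | f i e = 1}, fun i => ?_, fun e => ?_⟩
  · rw [isEven_iff]
    intro x
    refine Eq.trans ?_ (h1 i x)
    congr 1
    funext e
    rcases one_or (f i e) with h | h <;> simp [h]
  · rw [← h2 e, Set.ncard_eq_toFinset_card']
    congr 1
    ext i
    simp

/-- two even subgraphs -/
theorem qc_of_flow {V : Type} {src dst : E → V} {C₁ C₂ : Set E} (h1 : IsEven src dst C₁)
    (h2 : IsEven src dst C₂) (h : C₁ ∪ C₂ = Set.univ) : QC src dst := by
  classical
  rw [isEven_iff] at h1 h2
  set a : E → ZMod 2 := fun e => if e ∈ C₁ then 1 else 0 with ha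
  set b : E → ZMod 2 := fun e => if e ∈ C₂ then 1 else 0 with hb
  have hab : ∀ x, bd src dst (fun e => a e + b e) x = 0 := by
    intro x
    have : bd src dst (fun e => a e + b e) x = bd src dst a x + bd src dst b x := by
      unfold bd
      rw [← sum_add_distrib]
      refine sum_congr rfl fun e _ => ?_
      by_cases h3 : src e = x <;> by_cases h4 : dst e = x <;> simp [h3, h4]
      ring
    rw [this, h1, h2, add_zero]
  refine ⟨![a, a, b, b, fun e => a e + b e, fun e => a e + b e], fun i => ?_, fun e => ?_⟩
  · fin_cases i
    · exact h1
    · exact h1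
    · exact h2
    · exact h2
    · exact hab
    · exact hab
  · have key : ∀ u v : ZMod 2, (u = 1 ∨ v = 1) →
        (univ.filter fun i : Fin 6 => (![u, u, v, v, u + v, u + v] : Fin 6 → ZMod 2) i = 1).card
          = 4 := by decide
    refine Eq.trans ?_ (key (a e) (b e) ?_)
    · congr 1
    · have he : e ∈ C₁ ∪ C₂ := by rw [h]; exact Set.mem_univ _
      rcases he with h3 | h3
      · left; simp [ha, h3]
      · right; simp [hb, h3]

end

theorem qc_of_narrow {V E : Type} [Fintype E] [Finite V] {src dst : E → V}
    (h : ∀ Z, (leaving src dst Z).ncard ≠ 1)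
    (hw : TreewidthLE src dst 4 ∨ CarvingWidthLE src dst 5 ∨ CutwidthLE src dst 6) :
    QC src dst := by
  classical
  have := Fintype.ofFinite V
  have conv : ∀ C : Fin 6 → Finset E,
      (∀ i v, Even (((C i).filter (fun e => src e = v)).card +
        ((C i).filter (fun e => dst e = v)).card)) →
      (∀ e, (univ.filter (fun i => e ∈ C i)).card = 4) → QC src dst := by
    intro C h1 h2
    apply qc_of_cover
    refine ⟨fun i => (C i : Set E), fun i v => ?_, fun e => ?_⟩
    · have h3 := h1 i v
      have h4 : ∀ s : E → V, {e | e ∈ (C i : Set E) ∧ s e = v}.ncard =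
          ((C i).filter (fun e => s e = v)).card := by
        intro s
        rw [← Set.ncard_coe_finset]
        congr 1
        ext e
        simp
      rw [h4, h4]
      exact h3
    · rw [← h2 e, ← Set.ncard_coe_finset]
      congr 1
      ext i
      simp
  rcases hw with hw | hw | hw
  · -- treewidth
    obtain ⟨C, h1, h2⟩ := TreewidthFour.result V E src dst (fun e hI => by
      unfold TreewidthFour.IsCutEdge at hI
      apply h {v | (TreewidthFour.under src dst {e' | e' ≠ e}).Reachable (src e) v}
      rw [Set.ncard_eq_one]
      refine ⟨e, ?_⟩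
      ext e'
      simp only [leaving, Set.mem_ofPred_eq, Set.mem_singleton_iff]
      constructor
      · intro h1
        by_contra hne
        apply h1
        have hadj : src e' ≠ dst e' →
            (TreewidthFour.under src dst {e' | e' ≠ e}).Adj (src e') (dst e') := fun h2 =>
          ⟨h2, e', hne, Or.inl ⟨rfl, rfl⟩⟩
        by_cases hl : src e' = dst e'
        · rw [hl]
        · exact ⟨fun h2 => h2.trans (hadj hl).reachable,
            fun h2 => h2.trans (hadj hl).symm.reachable⟩
      · rintro rfl h1
        exact hI (h1.mp (SimpleGraph.Reachable.refl _))) hw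
    refine conv C (fun i v => ?_) h2
    have h3 := h1 i v
    unfold TreewidthFour.deg at h3
    rw [sum_add_distrib, ← card_filter, ← card_filter] at h3
    exact h3
  · -- carving width
    obtain ⟨C, h1, h2⟩ := CarvingWidthFive.result V E src dst (fun Z hZ => by
      apply h Z
      rw [← hZ, ← Set.ncard_coe_finset]
      congr 1
      ext e
      simp [leaving, Pool.Agent.W420.BF.cut]) hw
    exact conv C (fun i v => by convert h1 i v) (fun e => by convert h2 e)
  · obtain ⟨f, hf, hc⟩ := hw
    obtain ⟨C, h1, h2⟩ := CutwidthSix.result V E src dst (fun Z hZ => by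
      apply h Z
      rw [← hZ, ← Set.ncard_coe_finset]
      congr 1
      ext e
      simp [leaving]) ⟨f, hf, fun n => by
      refine le_trans (le_of_eq ?_) (hc n)
      rw [← Set.ncard_coe_finset]
      congr 1
      ext e
      simp [leaving]⟩
    exact conv C h1 h2

/-- Every graph in the class `Closure` has a quadruple cover by six even subgraphs. -/
theorem result (V E : Type) [Fintype E] (src dst : E → V) (h : Closure src dst) :
    QuadrupleCover src dst := by
  apply cover_of_qc
  induction h with
  | flow src dst C₁ C₂ h1 h2 h => exact qc_of_flow h1 h2 h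
  | narrow src dst h hw => exact qc_of_narrow h hw
  | identify src dst c _ ih => exact QC.map c ih
  | union src dst D _ _ ih1 ih2 => exact QC.union D ih1 ih2
  | sum src dst Z z z' hz hz' h3 _ _ ih1 ih2 => exact QC.sum Z hz hz' h3 ih1 ih2

end Pool.Agent.Results.MP_40718a_co.CoverClosure
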