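import Pool.Agent.X186.IC.Cover
import Pool.Agent.X186.IC.DegSum
import Pool.Agent.TH362.TF.Multi
import Pool.Agent.TH362.TF.Cyc

/-!
A finite multigraph without cut edges has a quadruple cover by six even subgraphs if the vertices, or
the pairs of non-adjacent vertices, or the triples, quadruples or quintuples of pairwise non-adjacent
vertices have many neighbours.
-/

set_option autoImplicit false

namespace Pool.Agent.Results.MP_40718a_co.DegreeSums

open Pool.Agent.TH362.Multi Pool.Agent.X186.IC

/-- Let `s t : E → V` be a finite multigraph without isthmuses. Suppose that for some `r ≤ 4` and some `σ > 9 (r + 1)` every `r + 1` pairwise non-adjacent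
vertices have together at least `σ` neighbours (counted with multiplicity, that is, the sum of the
numbers of their neighbours is at least `σ`), and that the number `n` of vertices satisfies
`(r + 1) n < k (σ + r + 1)`, where `k = 17, 15, 12, 9, 5` for `r = 0, 1, 2, 3, 4`
(`LargeDegreeSums`). Then there are six edge sets in which all degrees are even (`IsCycle`), such
that every edge is in exactly four of them. -/
theorem result (V E : Type) [Finite V] [Finite E] (s t : E → V)
    (hb : ∀ e, ¬ Isthmus s t e) (h : LargeDegreeSums s t) :
    ∃ C : Fin 6 → Set E, (∀ i, IsCycle s t (C i)) ∧ ∀ e, {i | e ∈ C i}.ncard = 4 := by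
  classical
  have := Fintype.ofFinite V
  have := Fintype.ofFinite E
  have h1 := TH362.TF.n1_of s t hb
  obtain ⟨g, hg1, hg2⟩ := CV.cover (dic_deg h1 h)
  refine ⟨fun i => {e | g i e = 1}, fun i => TH362.TF.Cyc.isCycle_of s t (g i) (hg1 i), fun e => ?_⟩
  rw [← hg2 e, ← Set.ncard_coe_finset]
  congr 1
  ext i
  simp only [Set.mem_ofPred_eq, Finset.coe_filter, Finset.mem_univ, true_and]

end Pool.Agent.Results.MP_40718a_co.DegreeSums
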