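import Pool.Agent.X42.FewCuts
import Pool.Agent.X42.FewCover
import Pool.Agent.TH362.TF.Multi
import Pool.Agent.TH362.TF.Cyc

/-!
A finite multigraph without cut edges and without seventeen pairwise disjoint vertex sets with
3, 5, 7 or 9 boundary edges has a quadruple cover by six even subgraphs.
-/

set_option autoImplicit false

namespace Pool.Agent.Results.MP_40718a_co.FewSmallCuts

open Pool.Agent.TH362.Multi Pool.Agent.X42.FewCuts

/-- Let `s t : E → V` be a finite multigraph without isthmuses. Suppose that there are no seventeen
pairwise disjoint vertex sets with an odd number, at most nine, of boundary edges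
(`NoSeventeen`), or that every vertex has at least `d` different neighbours for some `d ≥ 10` and
there are fewer than `17 (d + 1)` vertices (`ManyNeighbours`), or that for all `m ≥ 18` pairwise
disjoint vertex sets with odd numbers of boundary edges these numbers have a sum of more than
`4 m - 6` (`NoLightFamily`). Then there are six edge sets in which all degrees are even
(`IsCycle`), such that every edge is in exactly four of them. -/
theorem result (V E : Type) [Finite V] [Finite E] (s t : E → V)
    (hb : ∀ e, ¬ Isthmus s t e) (h : FewSmallCuts s t) :
    ∃ C : Fin 6 → Set E, (∀ i, IsCycle s t (C i)) ∧ ∀ e, {i | e ∈ C i}.ncard = 4 := by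
  classical
  have := Fintype.ofFinite V
  have := Fintype.ofFinite E
  have h1 := TH362.TF.n1_of s t hb
  obtain ⟨g, hg1, hg2⟩ := X42.FewCover.cover h1 (not_bad h1 h)
  refine ⟨fun i => {e | g i e = 1}, fun i => TH362.TF.Cyc.isCycle_of s t (g i) (hg1 i), fun e => ?_⟩
  rw [← hg2 e, ← Set.ncard_coe_finset]
  congr 1
  ext i
  simp only [Set.mem_ofPred_eq, Finset.coe_filter, Finset.mem_univ, true_and]

end Pool.Agent.Results.MP_40718a_co.FewSmallCuts
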